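import Pool.Agent.helper9.HER.Dir
import Pool.Agent.helper9.HX.TRN

/-!
# The lower bound (MP_d9e35a_co, theorem P)
-/

set_option autoImplicit false

open scoped Classical

namespace Pool.Agent.helper9.HER

open Finset
open Pool.Agent.helper9.HQ
open Pool.Agent.helper9.HX (Ef TRN)
open Pool.Agent.helper65.HC (V IsEig IsTop lam)

/-- the ball -/
noncomputable def Bl (d r : ℕ) : Fam d := univ.filter fun x : Finset (Fin d) => x.card ≤ r

theorem sum_Bl (d r : ℕ) (φ : ℕ → ℝ) : ∑ x ∈ Bl d r, φ x.card = ∑ j ∈ range (r + 1), (d.choose j : ℝ) * φ j := by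
  rw [← sum_fiberwise_of_maps_to (s := Bl d r) (t := range (r + 1)) (g := Finset.card)
    (fun x hx => by
      have := (mem_filter.mp hx).2
      rw [mem_range]
      omega)]
  refine sum_congr rfl fun j hj => ?_
  have e : (Bl d r).filter (fun x => x.card = j) = powersetCard j univ := by
    ext x
    rw [mem_filter, mem_powersetCard]
    rw [mem_range] at hj
    constructor
    · rintro ⟨_, h⟩
      exact ⟨subset_univ _, h⟩
    · rintro ⟨_, h⟩
      exact ⟨mem_filter.mpr ⟨mem_univ _, by omega⟩, h⟩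
  rw [e]
  have h1 : ∀ x ∈ powersetCard j (univ : Finset (Fin d)), φ x.card = φ j := by
    intro x hx
    rw [(mem_powersetCard.mp hx).2]
  rw [sum_congr rfl h1, sum_const, card_powersetCard, card_univ, Fintype.card_fin, nsmul_eq_mul]

theorem card_Bl (d r : ℕ) : (Bl d r).card = ∑ j ∈ range (r + 1), d.choose j := by
  have h := sum_Bl d r (fun _ => 1)
  rw [sum_const, nsmul_eq_mul, mul_one] at h
  simp only [mul_one] at h
  exact_mod_cast h

theorem choose_real (d j : ℕ) : (d.choose (j + 1) : ℝ) * ((j : ℝ) + 1) = (d.choose j : ℝ) * ((d : ℝ) - j) := by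
  rcases le_or_gt j d with h | h
  · have h1 := Nat.choose_succ_right_eq d j
    have h2 : ((d - j : ℕ) : ℝ) = (d : ℝ) - j := by push_cast [h]; ring
    rw [← h2]
    exact_mod_cast h1
  · rw [Nat.choose_eq_zero_of_lt h, Nat.choose_eq_zero_of_lt (by omega : d < j + 1)]
    simp

theorem Ef_Bl (d r : ℕ) (φ : ℕ → ℝ) : Ef (Bl d r) (fun x => φ x.card) =
    2 * ∑ j ∈ range (r + 1), (d.choose j : ℝ) * ((j : ℝ) * (φ j * φ (j - 1))) := by
  unfold Ef
  congr 1
  rw [← sum_Bl d r (fun j => (j : ℝ) * (φ j * φ (j - 1)))]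
  refine sum_congr rfl fun x hx => ?_
  have h1 : ∀ i ∈ x, (if x.erase i ∈ Bl d r then φ x.card * φ (x.erase i).card else 0) =
      φ x.card * φ (x.card - 1) := by
    intro i hi
    have hc := card_erase_of_mem hi
    rw [if_pos, hc]
    refine mem_filter.mpr ⟨mem_univ _, ?_⟩
    have := (mem_filter.mp hx).2
    omega
  rw [sum_congr rfl h1, sum_const, nsmul_eq_mul]

theorem lam_nonneg (d m : ℕ) (h1 : 1 ≤ m) (h2 : m ≤ 2 ^ d) : 0 ≤ lam d m := by
  have h := TRN d m (Bl d 0) (fun x => (fun _ => (1 : ℝ)) x.card) (by rw [card_Bl]; simpa using h1) h2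
  have e := Ef_Bl d 0 (fun _ => (1 : ℝ))
  have e2 := sum_Bl d 0 (fun _ => (1 : ℝ) ^ 2)
  have h3 : N (Bl d 0) (fun _ => (1 : ℝ)) = ∑ x ∈ Bl d 0, (1 : ℝ) ^ 2 := rfl
  have h4 : Ef (Bl d 0) (fun _ => (1 : ℝ)) ≤ lam d m * N (Bl d 0) (fun _ => (1 : ℝ)) := h
  rw [e, h3, e2] at h4
  simpa using h4

theorem lower (r : ℕ) (h : ℝ) (hT : Top r h) (d m : ℕ) (hm2 : m ≤ 2 ^ d)
    (hm : ∑ j ∈ range (r + 1), d.choose j ≤ m) : (1 - (r : ℝ) / d) * (h * √(d : ℝ)) ≤ lam d m := by
  have hm1 : 1 ≤ m := by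
    rw [sum_range_succ'] at hm
    rw [Nat.choose_zero_right] at hm
    omega
  rcases Nat.eq_zero_or_pos d with hd | hd
  · have h0 := lam_nonneg d m hm1 hm2
    rw [hd] at h0 ⊢
    rw [Nat.cast_zero, Real.sqrt_zero, mul_zero, mul_zero]
    exact h0
  have hd0 : (0 : ℝ) < d := by exact_mod_cast hd
  have hd1 : (1 : ℝ) ≤ d := by exact_mod_cast hd
  set ρ : ℝ := √(d : ℝ) with hρ
  have hρ0 : 0 < ρ := Real.sqrt_pos.mpr hd0
  have hρ2 : ρ ^ 2 = d := Real.sq_sqrt hd0.le
  have hρ1 : 1 ≤ ρ := by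
    rw [hρ]
    exact Real.one_le_sqrt.mpr hd1
  set G : ℕ → ℝ := Gf h ρ with hG
  have hGp : ∀ j, j ≤ r → 0 < G j := fun j hj => div_pos (hT.pos j hj) (pow_pos hρ0 _)
  have hGz : G (r + 1) = 0 := by
    rw [hG]
    unfold Gf
    rw [hT.zero, zero_div]
  have key := TRN d m (Bl d r) (fun x => G x.card) (by rw [card_Bl]; exact hm) hm2
  rw [Ef_Bl] at key
  have hN : N (Bl d r) (fun x => G x.card) = ∑ j ∈ range (r + 1), (d.choose j : ℝ) * G j ^ 2 := by
    unfold N
    exact sum_Bl d r (fun j => G j ^ 2)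
  have hNpos : 0 < N (Bl d r) (fun x => G x.card) := by
    rw [hN, sum_range_succ']
    have h1 : 0 ≤ ∑ k ∈ range r, (d.choose (k + 1) : ℝ) * G (k + 1) ^ 2 :=
      sum_nonneg fun k _ => by positivity
    have h2 : 0 < G 0 ^ 2 := pow_pos (hGp 0 (Nat.zero_le _)) 2
    rw [Nat.choose_zero_right, Nat.cast_one, one_mul]
    linarith
  have hsh : ∑ j ∈ range (r + 1), (d.choose j : ℝ) * ((j : ℝ) * (G j * G (j - 1))) =
      ∑ j ∈ range (r + 1), (d.choose j : ℝ) * (((d : ℝ) - j) * (G j * G (j + 1))) := by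
    rw [sum_range_succ', sum_range_succ _ r, hGz]
    rw [Nat.cast_zero, zero_mul, mul_zero, mul_zero, mul_zero, mul_zero]
    congr 1
    refine sum_congr rfl fun j _ => ?_
    have h1 := choose_real d j
    rw [Nat.add_sub_cancel]
    push_cast
    calc (d.choose (j + 1) : ℝ) * (((j : ℝ) + 1) * (G (j + 1) * G j)) =
        ((d.choose (j + 1) : ℝ) * ((j : ℝ) + 1)) * (G (j + 1) * G j) := by ring
      _ = (d.choose j : ℝ) * (((d : ℝ) - j) * (G j * G (j + 1))) := by rw [h1]; ring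
  have hlow : ((1 - r / d) * (h * ρ)) * N (Bl d r) (fun x => G x.card) ≤
      2 * ∑ j ∈ range (r + 1), (d.choose j : ℝ) * ((j : ℝ) * (G j * G (j - 1))) := by
    have e : 2 * ∑ j ∈ range (r + 1), (d.choose j : ℝ) * ((j : ℝ) * (G j * G (j - 1))) =
        ∑ j ∈ range (r + 1), (d.choose j : ℝ) * (G j * ((j : ℝ) * G (j - 1) + ((d : ℝ) - j) * G (j + 1))) := by
      rw [two_mul]
      nth_rewrite 2 [hsh]
      rw [← sum_add_distrib]
      exact sum_congr rfl fun j _ => by ring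
    rw [e, hN, mul_sum]
    refine sum_le_sum fun j hj => ?_
    have hj' : j ≤ r := by
      rw [mem_range] at hj
      omega
    rcases le_or_gt j d with hjd | hjd
    swap
    · rw [Nat.choose_eq_zero_of_lt hjd]
      simp
    have hGj := hGp j hj'
    have hG1 : 0 < G (j - 1) := hGp (j - 1) (by omega)
    have hrec : (j : ℝ) * G (j - 1) + ρ ^ 2 * G (j + 1) = h * ρ * G j := Gf_rec h ρ hρ0 j
    rw [hρ2] at hrec
    have hjr : (j : ℝ) ≤ r := by exact_mod_cast hj'
    have hjd' : (j : ℝ) ≤ d := by exact_mod_cast hjd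
    have hj0 : (0 : ℝ) ≤ j := Nat.cast_nonneg _
    have h1 : (1 - (r : ℝ) / d) * (h * ρ * G j) ≤ (1 - (j : ℝ) / d) * (h * ρ * G j) := by
      refine mul_le_mul_of_nonneg_right ?_ (mul_nonneg (mul_nonneg hT.nn hρ0.le) hGj.le)
      have := div_le_div_of_nonneg_right hjr hd0.le
      linarith
    have h2 : (1 - (j : ℝ) / d) * (h * ρ * G j) ≤ (j : ℝ) * G (j - 1) + ((d : ℝ) - j) * G (j + 1) := by
      rw [← hrec]
      have h3 : (1 - (j : ℝ) / d) * (j * G (j - 1) + d * G (j + 1)) =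
          (1 - (j : ℝ) / d) * (j * G (j - 1)) + ((d : ℝ) - j) * G (j + 1) := by
        field_simp
      rw [h3]
      have h4 : (1 - (j : ℝ) / d) * (j * G (j - 1)) ≤ 1 * (j * G (j - 1)) := by
        refine mul_le_mul_of_nonneg_right ?_ (mul_nonneg hj0 hG1.le)
        have : 0 ≤ (j : ℝ) / d := by positivity
        linarith
      linarith
    have h5 := mul_le_mul_of_nonneg_left (h1.trans h2) (mul_nonneg (Nat.cast_nonneg (d.choose j)) hGj.le)
    calc (1 - (r : ℝ) / d) * (h * ρ) * ((d.choose j : ℝ) * G j ^ 2) =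
        (d.choose j : ℝ) * G j * ((1 - (r : ℝ) / d) * (h * ρ * G j)) := by ring
      _ ≤ (d.choose j : ℝ) * G j * ((j : ℝ) * G (j - 1) + ((d : ℝ) - j) * G (j + 1)) := h5
      _ = _ := by ring
  exact le_of_mul_le_mul_right (hlow.trans key) hNpos

end Pool.Agent.helper9.HER
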