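import Pool.Agent.helper9.HER.Upper
import Pool.Agent.helper9.HER.Lower

/-!
# Theorem P (MP_d9e35a_co)
-/

set_option autoImplicit false

open scoped Classical

namespace Pool.Agent.helper9.HER

open Finset
open Pool.Agent.helper65.HC (V IsEig IsTop lam)

theorem polynomialRange (r : ℕ) : ∃ h : ℝ,
    IsGreatest {x : ℝ | Polynomial.aeval x (Polynomial.hermite (r + 1)) = 0} h ∧
    ∀ d m : ℕ, 1 ≤ m → m ≤ 2 ^ d →
      lam d m ≤ h * √(d : ℝ) + 9 * (r + 1) * (m : ℝ) ^ ((1 : ℝ) / (2 * r + 2)) ∧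
      (∑ i ∈ range (r + 1), d.choose i ≤ m → (1 - (r : ℝ) / d) * (h * √(d : ℝ)) ≤ lam d m) := by
  obtain ⟨h, hT⟩ := Top_exists r
  exact ⟨h, Top_greatest hT, fun d m hm1 hm2 => ⟨upper r h hT d m hm1 hm2, lower r h hT d m hm2⟩⟩

end Pool.Agent.helper9.HER
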