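import Pool.Agent.helper9.HER.Shift

/-!
# Counting in shifted down-sets (MP_d9e35a_co, theorem P)
-/

set_option autoImplicit false

open scoped Classical

namespace Pool.Agent.helper9.HER

open Finset
open Pool.Agent.helper9.HQ

/-- the elements `≥ t` -/
noncomputable def ge {d : ℕ} (t : ℕ) : Finset (Fin d) := univ.filter fun i => t ≤ (i : ℕ)

/-- the elements `< t` -/
noncomputable def lt' {d : ℕ} (t : ℕ) : Finset (Fin d) := univ.filter fun i => (i : ℕ) < t

theorem move {d : ℕ} (A : Fam d) (hA : Shf A) : ∀ (n : ℕ) (T B : Finset (Fin d)), T ∈ A →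
    T.card = B.card → (T \ B).card = n → (∀ a ∈ T \ B, ∀ b ∈ B \ T, b < a) → B ∈ A := by
  intro n
  induction n with
  | zero =>
    intro T B hT hc h0 _
    rw [card_eq_zero, sdiff_eq_empty_iff_subset] at h0
    rw [← eq_of_subset_of_card_le h0 hc.ge]
    exact hT
  | succ n ih =>
    intro T B hT hc h0 hlt
    have hne : (T \ B).Nonempty := by
      rw [← card_pos, h0]
      omega
    obtain ⟨a, ha⟩ := hne
    have hc2 : (B \ T).card = (T \ B).card := by
      have h1 := card_sdiff_add_card_inter B T
      have h2 := card_sdiff_add_card_inter T B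
      rw [inter_comm] at h2
      omega
    have hne2 : (B \ T).Nonempty := by
      rw [← card_pos, hc2, h0]
      omega
    obtain ⟨b, hb⟩ := hne2
    have hba := hlt a ha b hb
    rw [mem_sdiff] at ha hb
    have hT' := hA T hT b a hba ha.1 hb.2
    have hbe : b ∉ T.erase a := fun h => hb.2 (mem_of_mem_erase h)
    refine ih (insert b (T.erase a)) B hT' ?_ ?_ ?_
    · rw [card_insert_of_notMem hbe, card_erase_of_mem ha.1, ← hc]
      have : 0 < T.card := card_pos.mpr ⟨a, ha.1⟩
      omega
    · have e : insert b (T.erase a) \ B = (T \ B).erase a := by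
        ext x
        simp only [mem_sdiff, mem_insert, mem_erase]
        constructor
        · rintro ⟨h1 | h1, h2⟩
          · exact absurd (h1 ▸ hb.1) h2
          · exact ⟨h1.1, h1.2, h2⟩
        · rintro ⟨h1, h2, h3⟩
          exact ⟨Or.inr ⟨h1, h2⟩, h3⟩
      rw [e, card_erase_of_mem (mem_sdiff.mpr ha), h0]
      rfl
    · intro x hx y hy
      refine hlt x ?_ y ?_
      · rw [mem_sdiff] at hx ⊢
        rcases mem_insert.mp hx.1 with h | h
        · exact absurd (h ▸ hb.1) hx.2
        · exact ⟨mem_of_mem_erase h, hx.2⟩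
      · rw [mem_sdiff] at hy ⊢
        refine ⟨hy.1, fun h => hy.2 ?_⟩
        rw [mem_insert, mem_erase]
        right
        refine ⟨?_, h⟩
        rintro rfl
        exact ha.2 hy.1

theorem card_lt' {d t : ℕ} (h : t ≤ d) : (lt' t : Finset (Fin d)).card = t := by
  unfold lt'
  rw [Fin.card_filter_val_lt, min_eq_right h]

theorem card_lt'_le {d t : ℕ} : (lt' t : Finset (Fin d)).card ≤ t := by
  unfold lt'
  rw [Fin.card_filter_val_lt]
  exact min_le_right _ _

/-- a set with `k` elements `≥ t` forces `binom t k` members -/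
theorem count {d : ℕ} (A : Fam d) (hD : Dn A) (hS : Shf A) (t k : ℕ) (s : Finset (Fin d)) (hs : s ∈ A)
    (hk1 : 1 ≤ k) (hk : k ≤ (s ∩ ge t).card) : t.choose k ≤ A.card := by
  obtain ⟨T, hT, hTc⟩ := exists_subset_card_eq hk
  have hTA : T ∈ A := hD s hs T (hT.trans inter_subset_left)
  have hTge : ∀ a ∈ T, t ≤ (a : ℕ) := fun a ha => (mem_filter.mp (mem_inter.mp (hT ha)).2).2
  have htd : t ≤ d := by
    obtain ⟨a, ha⟩ := card_pos.mp (show 0 < T.card by omega)
    exact (hTge a ha).trans a.2.le
  have hsub : powersetCard k (lt' t : Finset (Fin d)) ⊆ A := by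
    intro B hB
    rw [mem_powersetCard] at hB
    refine move A hS _ T B hTA (by rw [hTc, hB.2]) rfl ?_
    intro a ha b hb
    have h1 := hTge a (mem_sdiff.mp ha).1
    have h2 := (mem_filter.mp (hB.1 (mem_sdiff.mp hb).1)).2
    have h3 : (b : ℕ) < (a : ℕ) := lt_of_lt_of_le h2 h1
    exact h3
  have := card_le_card hsub
  rw [card_powersetCard, card_lt' htd] at this
  exact this

theorem count' {d : ℕ} (A : Fam d) (hD : Dn A) (hS : Shf A) (t k : ℕ) (h : A.card < t.choose (k + 1))
    (s : Finset (Fin d)) (hs : s ∈ A) : (s ∩ ge t).card ≤ k := by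
  by_contra hcon
  push Not at hcon
  exact absurd (count A hD hS t (k + 1) s hs (by omega) hcon) (not_le.mpr h)

end Pool.Agent.helper9.HER
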