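import Mathlib

/-!
# The largest zeros of the Hermite polynomials (MP_d9e35a_co, theorem P)
-/

set_option autoImplicit false

namespace Pool.Agent.helper9.HER

open Polynomial

/-- the value of the (probabilists') Hermite polynomial of degree `n` at `x` -/
noncomputable def He (n : ℕ) (x : ℝ) : ℝ := aeval x (hermite n)

theorem He_zero (x : ℝ) : He 0 x = 1 := by simp [He, hermite_zero]

theorem He_one (x : ℝ) : He 1 x = x := by simp [He]

theorem HER_der (n : ℕ) : derivative (hermite (n + 1)) = ((n : ℤ[X]) + 1) * hermite n := by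
  induction n with
  | zero => simp [hermite_zero]
  | succ n ih =>
    have h1 : derivative (hermite (n + 1 + 1)) =
        hermite (n + 1) + X * derivative (hermite (n + 1)) - derivative (derivative (hermite (n + 1))) := by
      conv_lhs => rw [hermite_succ]
      rw [derivative_sub, derivative_mul, derivative_X, one_mul]
    have h2 : derivative (derivative (hermite (n + 1))) = ((n : ℤ[X]) + 1) * derivative (hermite n) := by
      rw [ih, derivative_mul, derivative_add, derivative_natCast, derivative_one]
      ring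
    have h3 : hermite (n + 1) = X * hermite n - derivative (hermite n) := hermite_succ n
    rw [h1, h2, ih]
    push_cast
    linear_combination (-((n : ℤ[X]) + 1)) * h3

theorem He_succ (n : ℕ) (x : ℝ) : He (n + 2) x = x * He (n + 1) x - (n + 1) * He n x := by
  have h1 : hermite (n + 2) = X * hermite (n + 1) - ((n : ℤ[X]) + 1) * hermite n := by
    rw [hermite_succ, HER_der]
  unfold He
  rw [h1, map_sub, map_mul, map_mul, aeval_X, map_add, map_natCast, map_one]

theorem He_cont (n : ℕ) : Continuous (He n) := by
  unfold He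
  exact (hermite n).continuous_aeval

theorem He_big (n : ℕ) (x : ℝ) (hx : (n : ℝ) ≤ x) : ∀ j : ℕ, j ≤ n →
    1 ≤ He j x ∧ (j + 1 ≤ n → He j x ≤ He (j + 1) x) := by
  intro j
  induction j with
  | zero =>
    intro _
    refine ⟨by rw [He_zero], fun h => ?_⟩
    rw [He_zero, He_one]
    have : (1 : ℝ) ≤ n := by exact_mod_cast h
    linarith
  | succ j ih =>
    intro hj
    obtain ⟨h1, h2⟩ := ih (by omega)
    have h3 := h2 hj
    refine ⟨h1.trans h3, fun h => ?_⟩
    rw [He_succ]
    have h4 : ((j : ℝ) + 1) + 1 ≤ x := by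
      have : ((j + 1 + 1 : ℕ) : ℝ) ≤ n := by exact_mod_cast h
      push_cast at this
      linarith
    have h5 : (1 : ℝ) ≤ He (j + 1) x := h1.trans h3
    have hj0 : (0 : ℝ) ≤ (j : ℝ) := Nat.cast_nonneg j
    nlinarith

/-- the data of the largest zero -/
structure Top (k : ℕ) (h : ℝ) : Prop where
  nn : 0 ≤ h
  zero : He (k + 1) h = 0
  big : ∀ x, h < x → ∀ j, j ≤ k + 1 → 0 < He j x
  pos : ∀ j, j ≤ k → 0 < He j h

theorem Top_exists (k : ℕ) : ∃ h, Top k h := by
  induction k with
  | zero =>
    refine ⟨0, le_refl _, by rw [zero_add, He_one], ?_, ?_⟩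
    · intro x hx j hj
      interval_cases j
      · rw [He_zero]; exact one_pos
      · rw [He_one]; exact hx
    · intro j hj
      interval_cases j
      rw [He_zero]; exact one_pos
  | succ k ih =>
    obtain ⟨h, hT⟩ := ih
    have hneg : He (k + 1 + 1) h < 0 := by
      have h1 := hT.pos k (le_refl _)
      rw [He_succ, hT.zero]
      have hk : (0 : ℝ) < (k : ℝ) + 1 := by positivity
      nlinarith [mul_pos hk h1]
    -- a large point
    set M : ℝ := max (h + 1) ((k + 2 : ℕ) : ℝ) with hM
    have hMpos : ∀ x, M ≤ x → 0 < He (k + 1 + 1) x := by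
      intro x hx
      have h1 := (He_big (k + 2) x ((le_max_right _ _).trans hx) (k + 2) (le_refl _)).1
      exact lt_of_lt_of_le one_pos h1
    have hhM : h ≤ M := by
      have := le_max_left (h + 1) ((k + 2 : ℕ) : ℝ)
      rw [← hM] at this
      linarith
    set S : Set ℝ := Set.Icc h M ∩ (He (k + 1 + 1)) ⁻¹' {0} with hS
    have hcomp : IsCompact S := isCompact_Icc.inter_right (isClosed_singleton.preimage (He_cont _))
    have hne : S.Nonempty := by
      have h1 := intermediate_value_Icc hhM (He_cont (k + 1 + 1)).continuousOn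
      obtain ⟨y, hy, hy0⟩ := h1 ⟨hneg.le, (hMpos M (le_refl _)).le⟩
      exact ⟨y, hy, hy0⟩
    obtain ⟨h', hh', hmax⟩ := hcomp.exists_isGreatest hne
    have hz : He (k + 1 + 1) h' = 0 := hh'.2
    have hlt : h < h' := by
      rcases hh'.1.1.lt_or_eq with hl | hl
      · exact hl
      · rw [← hl] at hz
        linarith
    have hbig : ∀ x, h' < x → 0 < He (k + 1 + 1) x := by
      intro x hx
      by_contra hcon
      push Not at hcon
      have hxM : x ≤ M := by
        by_contra hc
        push Not at hc
        exact absurd (hMpos x hc.le) (not_lt.mpr hcon)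
      have h1 := intermediate_value_Icc hxM (He_cont (k + 1 + 1)).continuousOn
      obtain ⟨y, hy, hy0⟩ := h1 ⟨hcon, (hMpos M (le_refl _)).le⟩
      have hyS : y ∈ S := ⟨⟨by linarith [hy.1], hy.2⟩, hy0⟩
      have := hmax hyS
      linarith [hy.1]
    refine ⟨h', hT.nn.trans hlt.le, hz, ?_, fun j hj => hT.big h' hlt j hj⟩
    intro x hx j hj
    rcases Nat.lt_or_ge j (k + 1 + 1) with hj' | hj'
    · exact hT.big x (hlt.trans hx) j (by omega)
    · have : j = k + 1 + 1 := by omega
      rw [this]
      exact hbig x hx

theorem Top_greatest {k : ℕ} {h : ℝ} (hT : Top k h) :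
    IsGreatest {x : ℝ | aeval x (hermite (k + 1)) = 0} h := by
  refine ⟨hT.zero, fun x hx => ?_⟩
  by_contra hcon
  push Not at hcon
  have := hT.big x hcon (k + 1) (le_refl _)
  have hx' : He (k + 1) x = 0 := hx
  linarith

/-- the largest zero is at most `2 √k` -/
theorem Top_le {k : ℕ} {h : ℝ} (hT : Top k h) : h ≤ 2 * √(k : ℝ) := by
  by_contra hcon
  push Not at hcon
  set s : ℝ := √(k : ℝ) with hs
  have hs0 : 0 ≤ s := Real.sqrt_nonneg _
  have hss : s * s = k := Real.mul_self_sqrt (Nat.cast_nonneg _)
  have key : ∀ j : ℕ, j ≤ k → s * He j h ≤ He (j + 1) h := by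
    intro j
    induction j with
    | zero =>
      intro _
      rw [zero_add, He_one, He_zero]
      linarith
    | succ j ih =>
      intro hj
      have h1 := ih (by omega)
      have h2 := hT.pos j (by omega)
      have h3 := hT.pos (j + 1) hj
      rw [He_succ]
      have h4 : ((j : ℝ) + 1) ≤ s * s := by
        rw [hss]
        exact_mod_cast hj
      have h5 : ((j : ℝ) + 1) * He j h ≤ s * He (j + 1) h := by
        calc ((j : ℝ) + 1) * He j h ≤ s * s * He j h := mul_le_mul_of_nonneg_right h4 h2.le
          _ = s * (s * He j h) := by ring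
          _ ≤ s * He (j + 1) h := mul_le_mul_of_nonneg_left h1 hs0
      have h6 : 2 * s * He (j + 1) h ≤ h * He (j + 1) h := mul_le_mul_of_nonneg_right hcon.le h3.le
      linarith
  have h1 := key k (le_refl _)
  rw [hT.zero] at h1
  have h2 := hT.pos k (le_refl _)
  rcases Nat.eq_zero_or_pos k with hk | hk
  · subst hk
    have h3 := hT.zero
    rw [zero_add, He_one] at h3
    rw [h3] at hcon
    linarith
  · have hs1 : 0 < s := Real.sqrt_pos.mpr (by exact_mod_cast hk)
    have := mul_pos hs1 h2
    linarith

end Pool.Agent.helper9.HER
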