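import Pool.Agent.helper9.HER.Shift
import Pool.Agent.helper9.HER.Hermite

/-!
# The contribution of a set of directions (MP_d9e35a_co, theorem P)
-/

set_option autoImplicit false

open scoped Classical

namespace Pool.Agent.helper9.HER

open Finset
open Pool.Agent.helper9.HQ

/-- the part of the form which belongs to the directions in `I` -/
noncomputable def TI {d : ℕ} (I : Finset (Fin d)) (g : Finset (Fin d) → ℝ) : ℝ :=
  ∑ i ∈ I, ∑ s, g s * g (DC_fl i s)

theorem TI_univ {d : ℕ} (g : Finset (Fin d) → ℝ) : TI univ g = DC_tot g := rfl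

theorem TI_trivial {d : ℕ} (I : Finset (Fin d)) (g : Finset (Fin d) → ℝ) :
    TI I g ≤ I.card * ∑ s, g s ^ 2 := by
  unfold TI
  have h1 : ∀ i ∈ I, ∑ s, g s * g (DC_fl i s) ≤ ∑ s, g s ^ 2 := by
    intro i _
    have h2 := DC_sum_fl i (fun s => g s ^ 2)
    have h3 : ∑ s, g s * g (DC_fl i s) ≤ ∑ s, (1 / 2) * (g s ^ 2 + g (DC_fl i s) ^ 2) := by
      refine sum_le_sum fun s _ => ?_
      nlinarith [sq_nonneg (g s - g (DC_fl i s))]
    rw [← mul_sum, sum_add_distrib] at h3
    linarith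
  calc ∑ i ∈ I, ∑ s, g s * g (DC_fl i s) ≤ ∑ _i ∈ I, ∑ s, g s ^ 2 := sum_le_sum h1
    _ = I.card * ∑ s, g s ^ 2 := by rw [sum_const, nsmul_eq_mul]

/-- the weights -/
noncomputable def Gf (h ρ : ℝ) (j : ℕ) : ℝ := He j h / ρ ^ j

theorem Gf_rec (h ρ : ℝ) (hρ : 0 < ρ) (j : ℕ) :
    (j : ℝ) * Gf h ρ (j - 1) + ρ ^ 2 * Gf h ρ (j + 1) = h * ρ * Gf h ρ j := by
  unfold Gf
  cases j with
  | zero =>
    rw [He_zero, zero_add, He_one, Nat.cast_zero, zero_mul, pow_one, pow_zero]
    field_simp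
    ring
  | succ j =>
    rw [He_succ, Nat.add_sub_cancel]
    push_cast
    have e1 : ρ ^ (j + 1 + 1) = ρ ^ j * ρ * ρ := by ring
    have e2 : ρ ^ (j + 1) = ρ ^ j * ρ := by ring
    have e3 : ρ ^ j ≠ 0 := (pow_pos hρ j).ne'
    rw [e1, e2]
    field_simp
    ring

theorem level {d : ℕ} (I : Finset (Fin d)) (i : Fin d) (hi : i ∈ I) (s : Finset (Fin d)) :
    (i ∈ s → (DC_fl i s ∩ I).card + 1 = (s ∩ I).card) ∧
      (i ∉ s → (DC_fl i s ∩ I).card = (s ∩ I).card + 1) := by
  constructor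
  · intro h
    have e : DC_fl i s ∩ I = (s ∩ I).erase i := by
      rw [DC_fl_mem i s h, erase_inter]
    rw [e, card_erase_of_mem (mem_inter.mpr ⟨h, hi⟩)]
    have : 0 < (s ∩ I).card := card_pos.mpr ⟨i, mem_inter.mpr ⟨h, hi⟩⟩
    omega
  · intro h
    have e : DC_fl i s ∩ I = insert i (s ∩ I) := by
      rw [DC_fl_not i s h, insert_inter_of_mem hi]
    rw [e, card_insert_of_notMem (fun h' => h (mem_inter.mp h').1)]

theorem dir {d : ℕ} (A : Fam d) (I : Finset (Fin d)) (k : ℕ) (h : ℝ) (hT : Top k h)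
    (hA : ∀ s ∈ A, (s ∩ I).card ≤ k) (g : Finset (Fin d) → ℝ) (hg0 : ∀ s, 0 ≤ g s)
    (hgs : ∀ s, s ∉ A → g s = 0) : TI I g ≤ h * √(I.card : ℝ) * ∑ s, g s ^ 2 := by
  rcases Nat.eq_zero_or_pos I.card with hn | hn
  · have hI : I = ∅ := card_eq_zero.mp hn
    subst hI
    simp [TI]
  set ρ : ℝ := √(I.card : ℝ) with hρ
  have hρ0 : 0 < ρ := Real.sqrt_pos.mpr (by exact_mod_cast hn)
  have hρ2 : ρ ^ 2 = I.card := Real.sq_sqrt (Nat.cast_nonneg _)
  set G : Finset (Fin d) → ℝ := fun s => Gf h ρ (s ∩ I).card with hG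
  have hGpos : ∀ s ∈ A, 0 < G s := fun s hs => div_pos (hT.pos _ (hA s hs)) (pow_pos hρ0 _)
  -- the weights of the ordered pairs
  set W : Fin d → Finset (Fin d) → ℝ := fun i s =>
    if s ∈ A ∧ DC_fl i s ∈ A then G (DC_fl i s) / G s * g s ^ 2 else 0 with hW
  have h1 : ∀ i ∈ I, ∀ s, g s * g (DC_fl i s) ≤ (1 / 2) * (W i s + W i (DC_fl i s)) := by
    intro i _ s
    by_cases hs : s ∈ A ∧ DC_fl i s ∈ A
    · have hs' : DC_fl i s ∈ A ∧ DC_fl i (DC_fl i s) ∈ A := ⟨hs.2, by rw [DC_fl_fl]; exact hs.1⟩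
      simp only [hW]
      rw [if_pos hs, if_pos hs', DC_fl_fl]
      have p1 := hGpos s hs.1
      have p2 := hGpos _ hs.2
      set a := G s
      set b := G (DC_fl i s)
      set x := g s
      set y := g (DC_fl i s)
      have e : (1 / 2) * (b / a * x ^ 2 + a / b * y ^ 2) - x * y = (b * x - a * y) ^ 2 / (2 * (a * b)) := by
        field_simp
        ring
      have : 0 ≤ (b * x - a * y) ^ 2 / (2 * (a * b)) := by positivity
      linarith
    · have hs' : ¬ (DC_fl i s ∈ A ∧ DC_fl i (DC_fl i s) ∈ A) := by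
        rw [DC_fl_fl]
        exact fun h => hs ⟨h.2, h.1⟩
      simp only [hW]
      rw [if_neg hs, if_neg hs', add_zero, mul_zero]
      rw [not_and_or] at hs
      rcases hs with hs | hs
      · rw [hgs s hs, zero_mul]
      · rw [hgs _ hs, mul_zero]
  have h2 : TI I g ≤ ∑ i ∈ I, ∑ s, W i s := by
    unfold TI
    refine sum_le_sum fun i hi => ?_
    have h3 := DC_sum_fl i (fun s => W i s)
    have h4 : ∑ s, g s * g (DC_fl i s) ≤ ∑ s, (1 / 2) * (W i s + W i (DC_fl i s)) :=
      sum_le_sum fun s _ => h1 i hi s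
    rw [← mul_sum, sum_add_distrib] at h4
    linarith
  refine h2.trans ?_
  rw [sum_comm, mul_sum]
  refine sum_le_sum fun s _ => ?_
  by_cases hs : s ∈ A
  swap
  · have : ∑ i ∈ I, W i s = 0 := sum_eq_zero fun i _ => by
      simp only [hW]
      rw [if_neg (fun h => hs h.1)]
    rw [this, hgs s hs]
    simp
  have hGs := hGpos s hs
  set j := (s ∩ I).card with hj
  have hjk : j ≤ k := hA s hs
  have hgsq : 0 ≤ g s ^ 2 := sq_nonneg _
  -- split the directions
  have hsplit : ∑ i ∈ I, W i s = ∑ i ∈ I.filter (fun i => i ∈ s), W i s +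
      ∑ i ∈ I.filter (fun i => i ∉ s), W i s :=
    (sum_filter_add_sum_filter_not I (fun i => i ∈ s) _).symm
  have hrec := Gf_rec h ρ hρ0 j
  have hdown : ∑ i ∈ I.filter (fun i => i ∈ s), W i s ≤ j * Gf h ρ (j - 1) / G s * g s ^ 2 := by
    have hc : (I.filter (fun i => i ∈ s)).card = j := by
      rw [hj]
      congr 1
      ext i
      rw [mem_filter, mem_inter, and_comm]
    have h3 : ∀ i ∈ I.filter (fun i => i ∈ s), W i s ≤ Gf h ρ (j - 1) / G s * g s ^ 2 := by
      intro i hi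
      rw [mem_filter] at hi
      have hl := (level I i hi.1 s).1 hi.2
      have e : G (DC_fl i s) = Gf h ρ (j - 1) := by
        simp only [hG]
        congr 1
        omega
      have hpos : 0 ≤ Gf h ρ (j - 1) := div_nonneg (hT.pos _ (by omega)).le (pow_pos hρ0 _).le
      simp only [hW]
      split_ifs
      · rw [e]
      · positivity
    refine (sum_le_sum h3).trans ?_
    rw [sum_const, hc, nsmul_eq_mul]
    apply le_of_eq
    ring
  have hup : ∑ i ∈ I.filter (fun i => i ∉ s), W i s ≤ ρ ^ 2 * Gf h ρ (j + 1) / G s * g s ^ 2 := by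
    rcases Nat.lt_or_ge j k with hlt | hge
    · have hpos : 0 ≤ Gf h ρ (j + 1) := div_nonneg (hT.pos _ (by omega)).le (pow_pos hρ0 _).le
      have h3 : ∀ i ∈ I.filter (fun i => i ∉ s), W i s ≤ Gf h ρ (j + 1) / G s * g s ^ 2 := by
        intro i hi
        rw [mem_filter] at hi
        have hl := (level I i hi.1 s).2 hi.2
        have e : G (DC_fl i s) = Gf h ρ (j + 1) := by
          simp only [hG]
          rw [hl]
        simp only [hW]
        split_ifs
        · rw [e]
        · positivity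
      refine (sum_le_sum h3).trans ?_
      rw [sum_const, nsmul_eq_mul, hρ2]
      have hc : ((I.filter (fun i => i ∉ s)).card : ℝ) ≤ I.card := by
        exact_mod_cast card_le_card (filter_subset _ _)
      calc ((I.filter (fun i => i ∉ s)).card : ℝ) * (Gf h ρ (j + 1) / G s * g s ^ 2) ≤
          (I.card : ℝ) * (Gf h ρ (j + 1) / G s * g s ^ 2) :=
            mul_le_mul_of_nonneg_right hc (by positivity)
        _ = (I.card : ℝ) * Gf h ρ (j + 1) / G s * g s ^ 2 := by ring
    · have hjk' : j = k := le_antisymm hjk hge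
      have hz : Gf h ρ (j + 1) = 0 := by
        unfold Gf
        rw [hjk', hT.zero, zero_div]
      rw [hz, mul_zero, zero_div, zero_mul]
      refine (sum_eq_zero fun i hi => ?_).le
      rw [mem_filter] at hi
      have hl := (level I i hi.1 s).2 hi.2
      simp only [hW]
      rw [if_neg]
      intro hh
      have := hA _ hh.2
      omega
  rw [hsplit]
  refine (add_le_add hdown hup).trans (le_of_eq ?_)
  have e : j * Gf h ρ (j - 1) / G s * g s ^ 2 + ρ ^ 2 * Gf h ρ (j + 1) / G s * g s ^ 2 =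
      (j * Gf h ρ (j - 1) + ρ ^ 2 * Gf h ρ (j + 1)) / G s * g s ^ 2 := by ring
  have hGj : Gf h ρ j = G s := rfl
  rw [e, hrec, hGj, mul_div_assoc, div_self hGs.ne', mul_one]

end Pool.Agent.helper9.HER
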