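import Pool.Agent.helper9.HQ.DC

/-!
# Shifting families of sets (MP_d9e35a_co, theorem P)
-/

set_option autoImplicit false

open scoped Classical

namespace Pool.Agent.helper9.HER

open Finset
open Pool.Agent.helper65.HC (V IsEig IsTop lam)
open Pool.Agent.helper9.HQ

/-- shifted families -/
def Shf {d : ℕ} (A : Fam d) : Prop :=
  ∀ s ∈ A, ∀ i j : Fin d, i < j → j ∈ s → i ∉ s → insert i (s.erase j) ∈ A

/-- exchanging two elements -/
noncomputable def sw {d : ℕ} (i j : Fin d) (s : Finset (Fin d)) : Finset (Fin d) :=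
  univ.filter fun k => Equiv.swap i j k ∈ s

theorem mem_sw {d : ℕ} (i j k : Fin d) (s : Finset (Fin d)) : k ∈ sw i j s ↔ Equiv.swap i j k ∈ s := by
  unfold sw
  rw [mem_filter]
  exact ⟨fun h => h.2, fun h => ⟨mem_univ _, h⟩⟩

theorem sw_sw {d : ℕ} (i j : Fin d) (s : Finset (Fin d)) : sw i j (sw i j s) = s := by
  ext k
  rw [mem_sw, mem_sw, Equiv.swap_apply_self]

theorem mem_sw_l {d : ℕ} (i j : Fin d) (s : Finset (Fin d)) : i ∈ sw i j s ↔ j ∈ s := by
  rw [mem_sw, Equiv.swap_apply_left]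

theorem mem_sw_r {d : ℕ} (i j : Fin d) (s : Finset (Fin d)) : j ∈ sw i j s ↔ i ∈ s := by
  rw [mem_sw, Equiv.swap_apply_right]

theorem mem_sw_o {d : ℕ} (i j k : Fin d) (s : Finset (Fin d)) (hi : k ≠ i) (hj : k ≠ j) :
    k ∈ sw i j s ↔ k ∈ s := by
  rw [mem_sw, Equiv.swap_apply_of_ne_of_ne hi hj]

theorem sw_same {d : ℕ} (i j : Fin d) (s : Finset (Fin d)) (h : i ∈ s ↔ j ∈ s) : sw i j s = s := by
  ext k
  by_cases hi : k = i
  · subst hi
    rw [mem_sw_l, h]
  · by_cases hj : k = j
    · subst hj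
      rw [mem_sw_r, h]
    · exact mem_sw_o i j k s hi hj

theorem sw_diff {d : ℕ} (i j : Fin d) (s : Finset (Fin d)) (hj : j ∈ s) (hi : i ∉ s) :
    sw i j s = insert i (s.erase j) := by
  have hij : i ≠ j := fun h => hi (h ▸ hj)
  ext k
  rw [mem_insert, mem_erase]
  by_cases hki : k = i
  · subst hki
    rw [mem_sw_l]
    exact ⟨fun _ => Or.inl rfl, fun _ => hj⟩
  · by_cases hkj : k = j
    · subst hkj
      rw [mem_sw_r]
      constructor
      · intro h
        exact absurd h hi
      · rintro (h | h)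
        · exact absurd h hki
        · exact absurd rfl h.1
    · rw [mem_sw_o i j k s hki hkj]
      constructor
      · intro h
        exact Or.inr ⟨hkj, h⟩
      · rintro (h | h)
        · exact absurd h hki
        · exact h.2

theorem sw_fl {d : ℕ} (i j k : Fin d) (s : Finset (Fin d)) :
    sw i j (DC_fl k s) = DC_fl (Equiv.swap i j k) (sw i j s) := by
  ext l
  rw [mem_sw]
  by_cases h : Equiv.swap i j l = k
  · have h' : l = Equiv.swap i j k := by rw [← h, Equiv.swap_apply_self]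
    rw [h, DC_mem_fl_self, h', DC_mem_fl_self, mem_sw, Equiv.swap_apply_self]
  · have h' : l ≠ Equiv.swap i j k := by
      intro hl
      exact h (by rw [hl, Equiv.swap_apply_self])
    rw [DC_mem_fl _ _ _ h, DC_mem_fl _ _ _ h', mem_sw]

noncomputable def swE {d : ℕ} (i j : Fin d) : Finset (Fin d) ≃ Finset (Fin d) :=
  ⟨sw i j, sw i j, sw_sw i j, sw_sw i j⟩

theorem sum_sw {d : ℕ} (i j : Fin d) (F : Finset (Fin d) → ℝ) : ∑ s, F (sw i j s) = ∑ s, F s :=
  Equiv.sum_comp (swE i j) F

theorem sum_sw_nat {d : ℕ} (i j : Fin d) (F : Finset (Fin d) → ℕ) : ∑ s, F (sw i j s) = ∑ s, F s :=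
  Equiv.sum_comp (swE i j) F

/-- shifting a function -/
noncomputable def cp {d : ℕ} (i j : Fin d) (g : Finset (Fin d) → ℝ) (s : Finset (Fin d)) : ℝ :=
  if i ∈ s then max (g s) (g (sw i j s)) else min (g s) (g (sw i j s))

theorem cp_nonneg {d : ℕ} (i j : Fin d) (g : Finset (Fin d) → ℝ) (hg : ∀ s, 0 ≤ g s)
    (s : Finset (Fin d)) : 0 ≤ cp i j g s := by
  unfold cp
  split_ifs
  · exact (hg s).trans (le_max_left _ _)
  · exact le_min (hg _) (hg _)

theorem cp_same {d : ℕ} (i j : Fin d) (g : Finset (Fin d) → ℝ) (s : Finset (Fin d))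
    (h : i ∈ s ↔ j ∈ s) : cp i j g s = g s := by
  unfold cp
  rw [sw_same i j s h, max_self, min_self, ite_self]

theorem cp_A {d : ℕ} (i j : Fin d) (g : Finset (Fin d) → ℝ) (s : Finset (Fin d)) (hi : i ∈ s)
    (hj : j ∉ s) : cp i j g s = max (g s) (g (sw i j s)) ∧
      cp i j g (sw i j s) = min (g s) (g (sw i j s)) := by
  constructor
  · unfold cp
    rw [if_pos hi]
  · unfold cp
    rw [if_neg (by rw [mem_sw_l]; exact hj), sw_sw, min_comm]

theorem cp_B {d : ℕ} (i j : Fin d) (g : Finset (Fin d) → ℝ) (s : Finset (Fin d)) (hi : i ∉ s)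
    (hj : j ∈ s) : cp i j g s = min (g s) (g (sw i j s)) ∧
      cp i j g (sw i j s) = max (g s) (g (sw i j s)) := by
  constructor
  · unfold cp
    rw [if_neg hi]
  · unfold cp
    rw [if_pos (by rw [mem_sw_l]; exact hj), sw_sw, max_comm]

/-- the sum over a pair is unchanged -/
theorem cp_add {d : ℕ} (i j : Fin d) (g : Finset (Fin d) → ℝ) (s : Finset (Fin d)) :
    cp i j g s + cp i j g (sw i j s) = g s + g (sw i j s) := by
  by_cases h : i ∈ s ↔ j ∈ s
  · rw [sw_same i j s h, cp_same i j g s h]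
  · by_cases hi : i ∈ s
    · have hj : j ∉ s := fun hj => h ⟨fun _ => hj, fun _ => hi⟩
      rw [(cp_A i j g s hi hj).1, (cp_A i j g s hi hj).2, max_add_min]
    · have hj : j ∈ s := by
        by_contra hj
        exact h ⟨fun h' => absurd h' hi, fun h' => absurd h' hj⟩
      rw [(cp_B i j g s hi hj).1, (cp_B i j g s hi hj).2, min_add_max]

theorem cp_sq {d : ℕ} (i j : Fin d) (g : Finset (Fin d) → ℝ) :
    ∑ s, cp i j g s ^ 2 = ∑ s, g s ^ 2 := by
  have h1 := sum_sw i j (fun s => cp i j g s ^ 2)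
  have h2 := sum_sw i j (fun s => g s ^ 2)
  have h3 : ∑ s, (cp i j g s ^ 2 + cp i j g (sw i j s) ^ 2) = ∑ s, (g s ^ 2 + g (sw i j s) ^ 2) := by
    refine Finset.sum_congr rfl fun s _ => ?_
    by_cases h : i ∈ s ↔ j ∈ s
    · rw [sw_same i j s h, cp_same i j g s h]
    · by_cases hi : i ∈ s
      · have hj : j ∉ s := fun hj => h ⟨fun _ => hj, fun _ => hi⟩
        rw [(cp_A i j g s hi hj).1, (cp_A i j g s hi hj).2, DC_mm]
      · have hj : j ∈ s := by
          by_contra hj
          exact h ⟨fun h' => absurd h' hi, fun h' => absurd h' hj⟩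
        rw [(cp_B i j g s hi hj).1, (cp_B i j g s hi hj).2, add_comm, DC_mm]
  rw [Finset.sum_add_distrib, Finset.sum_add_distrib] at h3
  linarith

/-- the edge inequality -/
theorem cp_edge {d : ℕ} (i j k : Fin d) (g : Finset (Fin d) → ℝ) (s : Finset (Fin d)) :
    g s * g (DC_fl k s) + g (sw i j s) * g (sw i j (DC_fl k s)) ≤
      cp i j g s * cp i j g (DC_fl k s) + cp i j g (sw i j s) * cp i j g (sw i j (DC_fl k s)) := by
  set t := DC_fl k s with ht
  by_cases h : i ∈ s ↔ j ∈ s
  · rw [sw_same i j s h, cp_same i j g s h]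
    have h2 := cp_add i j g t
    refine le_of_eq ?_
    rw [← mul_add, ← mul_add, h2]
  · by_cases h' : i ∈ t ↔ j ∈ t
    · rw [sw_same i j t h', cp_same i j g t h']
      have h2 := cp_add i j g s
      refine le_of_eq ?_
      rw [← add_mul, ← add_mul, h2]
    · -- the flip is in another direction
      have hki : k ≠ i := by
        rintro rfl
        by_cases hj : k = j
        · subst hj
          exact h Iff.rfl
        · apply h'
          rw [ht, DC_mem_fl_self, DC_mem_fl k j s (Ne.symm hj)]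
          by_cases hk : k ∈ s
          · constructor
            · intro h1
              exact absurd hk h1
            · intro h1
              exact absurd ⟨fun _ => h1, fun _ => hk⟩ h
          · constructor
            · intro _
              by_contra hj'
              exact h ⟨fun h1 => absurd h1 hk, fun h1 => absurd h1 hj'⟩
            · intro _
              exact hk
      have hkj : k ≠ j := by
        rintro rfl
        apply h'
        rw [ht, DC_mem_fl_self, DC_mem_fl k i s (Ne.symm hki)]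
        by_cases hk : k ∈ s
        · constructor
          · intro h1
            exact absurd ⟨fun _ => hk, fun _ => h1⟩ h
          · intro h1
            exact absurd hk h1
        · constructor
          · intro _
            exact hk
          · intro _
            by_contra hi'
            exact h ⟨fun h1 => absurd h1 hi', fun h1 => absurd h1 hk⟩
      have hit : i ∈ t ↔ i ∈ s := DC_mem_fl k i s (Ne.symm hki)
      have hjt : j ∈ t ↔ j ∈ s := DC_mem_fl k j s (Ne.symm hkj)
      by_cases hi : i ∈ s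
      · have hj : j ∉ s := fun hj => h ⟨fun _ => hj, fun _ => hi⟩
        have a1 := cp_A i j g s hi hj
        have a2 := cp_A i j g t (hit.mpr hi) (fun h1 => hj (hjt.mp h1))
        rw [a1.1, a1.2, a2.1, a2.2]
        exact DC_mm3 _ _ _ _
      · have hj : j ∈ s := by
          by_contra hj
          exact h ⟨fun h' => absurd h' hi, fun h' => absurd h' hj⟩
        have a1 := cp_B i j g s hi hj
        have a2 := cp_B i j g t (fun h1 => hi (hit.mp h1)) (hjt.mpr hj)
        rw [a1.1, a1.2, a2.1, a2.2]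
        have := DC_mm3 (g s) (g (sw i j s)) (g t) (g (sw i j t))
        linarith

theorem tot_sw {d : ℕ} (i j : Fin d) (g : Finset (Fin d) → ℝ) :
    ∑ k, ∑ s, g (sw i j s) * g (sw i j (DC_fl k s)) = DC_tot g := by
  unfold DC_tot
  rw [← Equiv.sum_comp (Equiv.swap i j) (fun k => ∑ s, g s * g (DC_fl k s))]
  refine Finset.sum_congr rfl fun k _ => ?_
  rw [← sum_sw i j (fun s => g s * g (DC_fl (Equiv.swap i j k) s))]
  refine Finset.sum_congr rfl fun s _ => ?_
  rw [sw_fl]

theorem cp_tot {d : ℕ} (i j : Fin d) (g : Finset (Fin d) → ℝ) : DC_tot g ≤ DC_tot (cp i j g) := by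
  have h1 := tot_sw i j g
  have h2 := tot_sw i j (cp i j g)
  have h3 : ∑ k, ∑ s, (g s * g (DC_fl k s) + g (sw i j s) * g (sw i j (DC_fl k s))) ≤
      ∑ k, ∑ s, (cp i j g s * cp i j g (DC_fl k s) +
        cp i j g (sw i j s) * cp i j g (sw i j (DC_fl k s))) :=
    Finset.sum_le_sum fun k _ => Finset.sum_le_sum fun s _ => cp_edge i j k g s
  have h4 : ∀ f : Finset (Fin d) → ℝ,
      ∑ k, ∑ s, (f s * f (DC_fl k s) + f (sw i j s) * f (sw i j (DC_fl k s))) =
      DC_tot f + ∑ k, ∑ s, f (sw i j s) * f (sw i j (DC_fl k s)) := by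
    intro f
    unfold DC_tot
    rw [← Finset.sum_add_distrib]
    refine Finset.sum_congr rfl fun k _ => ?_
    rw [← Finset.sum_add_distrib]
  rw [h4 g, h4 (cp i j g), h1, h2] at h3
  linarith

/-- shifting a family -/
noncomputable def shA {d : ℕ} (i j : Fin d) (A : Fam d) : Fam d :=
  univ.filter fun s => if i ∈ s then (s ∈ A ∨ sw i j s ∈ A) else (s ∈ A ∧ sw i j s ∈ A)

theorem cp_supp {d : ℕ} (i j : Fin d) (A : Fam d) (g : Finset (Fin d) → ℝ) (hg0 : ∀ s, 0 ≤ g s)
    (hg : ∀ s, s ∉ A → g s = 0) (s : Finset (Fin d)) (hs : s ∉ shA i j A) : cp i j g s = 0 := by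
  unfold shA at hs
  rw [mem_filter, not_and] at hs
  have hs' := hs (mem_univ _)
  unfold cp
  by_cases h : i ∈ s
  · rw [if_pos h] at hs' ⊢
    push Not at hs'
    rw [hg _ hs'.1, hg _ hs'.2, max_self]
  · rw [if_neg h] at hs' ⊢
    by_cases hA : s ∈ A
    · have h2 : sw i j s ∉ A := fun h2 => hs' ⟨hA, h2⟩
      rw [hg _ h2]
      exact min_eq_right (hg0 s)
    · rw [hg s hA]
      exact min_eq_left (hg0 _)

theorem mem_shA {d : ℕ} (i j : Fin d) (A : Fam d) (t : Finset (Fin d)) : t ∈ shA i j A ↔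
    (if i ∈ t then (t ∈ A ∨ sw i j t ∈ A) else (t ∈ A ∧ sw i j t ∈ A)) := by
  unfold shA
  rw [mem_filter]
  exact ⟨fun h => h.2, fun h => ⟨mem_univ _, h⟩⟩

/-- the sum of a weight over a pair -/
theorem shA_pair {d : ℕ} (i j : Fin d) (A : Fam d) (w : Finset (Fin d) → ℕ)
    (hw : ∀ s, i ∈ s → j ∉ s → w s ≤ w (sw i j s)) (s : Finset (Fin d)) :
    (if s ∈ shA i j A then w s else 0) + (if sw i j s ∈ shA i j A then w (sw i j s) else 0) ≤
      (if s ∈ A then w s else 0) + (if sw i j s ∈ A then w (sw i j s) else 0) := by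
  by_cases h : i ∈ s ↔ j ∈ s
  · have h1 : s ∈ shA i j A ↔ s ∈ A := by
      rw [mem_shA, sw_same i j s h, or_self, and_self, ite_self]
    rw [sw_same i j s h]
    simp only [h1, le_refl]
  · have hkey : ∀ t, i ∈ t → j ∉ t →
        (if t ∈ shA i j A then w t else 0) + (if sw i j t ∈ shA i j A then w (sw i j t) else 0) ≤
        (if t ∈ A then w t else 0) + (if sw i j t ∈ A then w (sw i j t) else 0) := by
      intro t hi hj
      have h1 : t ∈ shA i j A ↔ (t ∈ A ∨ sw i j t ∈ A) := by rw [mem_shA, if_pos hi]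
      have h2 : sw i j t ∈ shA i j A ↔ (sw i j t ∈ A ∧ t ∈ A) := by
        rw [mem_shA, if_neg (by rw [mem_sw_l]; exact hj), sw_sw]
      have hlt := hw t hi hj
      by_cases ha : t ∈ A <;> by_cases hb : sw i j t ∈ A <;> simp [h1, h2, ha, hb]
      exact hlt
    by_cases hi : i ∈ s
    · exact hkey s hi fun hj => h ⟨fun _ => hj, fun _ => hi⟩
    · have hj : j ∈ s := by
        by_contra hj
        exact h ⟨fun h' => absurd h' hi, fun h' => absurd h' hj⟩
      have := hkey (sw i j s) (by rw [mem_sw_l]; exact hj) (by rw [mem_sw_r]; exact hi)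
      rw [sw_sw] at this
      omega

theorem shA_le {d : ℕ} (i j : Fin d) (A : Fam d) (w : Finset (Fin d) → ℕ)
    (hw : ∀ s, i ∈ s → j ∉ s → w s ≤ w (sw i j s)) :
    ∑ s ∈ shA i j A, w s ≤ ∑ s ∈ A, w s := by
  have e : ∀ B : Fam d, ∑ s ∈ B, w s = ∑ s, if s ∈ B then w s else 0 := by
    intro B
    rw [← Finset.sum_filter, Finset.filter_mem_eq_inter, Finset.univ_inter]
  have h1 := sum_sw_nat i j (fun s => if s ∈ shA i j A then w s else 0)
  have h2 := sum_sw_nat i j (fun s => if s ∈ A then w s else 0)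
  have h3 := Finset.sum_le_sum fun s (_ : s ∈ (univ : Finset (Finset (Fin d)))) => shA_pair i j A w hw s
  rw [Finset.sum_add_distrib, Finset.sum_add_distrib] at h3
  rw [e, e]
  omega

theorem shA_card {d : ℕ} (i j : Fin d) (A : Fam d) : (shA i j A).card = A.card := by
  have e : ∀ B : Fam d, B.card = ∑ s, if s ∈ B then 1 else 0 := by
    intro B
    rw [Finset.card_eq_sum_ones, ← Finset.sum_filter, Finset.filter_mem_eq_inter, Finset.univ_inter]
  have h1 := sum_sw_nat i j (fun s => if s ∈ shA i j A then 1 else 0)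
  have h2 := sum_sw_nat i j (fun s => if s ∈ A then 1 else 0)
  have h3 : ∑ s, ((if s ∈ shA i j A then 1 else 0) + (if sw i j s ∈ shA i j A then 1 else 0)) =
      ∑ s, ((if s ∈ A then 1 else 0) + (if sw i j s ∈ A then 1 else 0)) := by
    refine Finset.sum_congr rfl fun s _ => ?_
    by_cases h : i ∈ s ↔ j ∈ s
    · have h1 : s ∈ shA i j A ↔ s ∈ A := by
        rw [mem_shA, sw_same i j s h, or_self, and_self, ite_self]
      rw [sw_same i j s h]
      simp only [h1]
    · have hkey : ∀ t, i ∈ t → j ∉ t →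
          ((if t ∈ shA i j A then 1 else 0) + (if sw i j t ∈ shA i j A then 1 else 0) : ℕ) =
          (if t ∈ A then 1 else 0) + (if sw i j t ∈ A then 1 else 0) := by
        intro t hi hj
        have h1 : t ∈ shA i j A ↔ (t ∈ A ∨ sw i j t ∈ A) := by rw [mem_shA, if_pos hi]
        have h2 : sw i j t ∈ shA i j A ↔ (sw i j t ∈ A ∧ t ∈ A) := by
          rw [mem_shA, if_neg (by rw [mem_sw_l]; exact hj), sw_sw]
        by_cases ha : t ∈ A <;> by_cases hb : sw i j t ∈ A <;> simp [h1, h2, ha, hb]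
      by_cases hi : i ∈ s
      · exact hkey s hi fun hj => h ⟨fun _ => hj, fun _ => hi⟩
      · have hj : j ∈ s := by
          by_contra hj
          exact h ⟨fun h' => absurd h' hi, fun h' => absurd h' hj⟩
        have := hkey (sw i j s) (by rw [mem_sw_l]; exact hj) (by rw [mem_sw_r]; exact hi)
        rw [sw_sw] at this
        omega
  rw [Finset.sum_add_distrib, Finset.sum_add_distrib] at h3
  rw [e, e]
  omega

/-- the potential -/
def wt {d : ℕ} (s : Finset (Fin d)) : ℕ := ∑ k ∈ s, ((k : ℕ) + 1)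

theorem wt_insert {d : ℕ} (i : Fin d) (s : Finset (Fin d)) (h : i ∉ s) :
    wt (insert i s) = ((i : ℕ) + 1) + wt s := by
  unfold wt
  rw [Finset.sum_insert h]

theorem wt_erase {d : ℕ} (i : Fin d) (s : Finset (Fin d)) (h : i ∈ s) :
    wt s = ((i : ℕ) + 1) + wt (s.erase i) := by
  rw [← wt_insert i _ (Finset.notMem_erase i s), Finset.insert_erase h]

theorem wt_sw {d : ℕ} (i j : Fin d) (hij : i < j) (s : Finset (Fin d)) (hi : i ∈ s) (hj : j ∉ s) :
    wt s < wt (sw i j s) := by
  have h1 : sw i j (sw i j s) = insert i ((sw i j s).erase j) :=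
    sw_diff i j _ (by rw [mem_sw_r]; exact hi) (by rw [mem_sw_l]; exact hj)
  rw [sw_sw] at h1
  have h2 : i ∉ (sw i j s).erase j := by
    intro h
    exact hj ((mem_sw_l i j s).mp (Finset.mem_of_mem_erase h))
  have h3 := wt_erase j (sw i j s) (by rw [mem_sw_r]; exact hi)
  have h4 := wt_insert i _ h2
  rw [← h1] at h4
  have h5 : (i : ℕ) < (j : ℕ) := hij
  omega

theorem shA_lt {d : ℕ} (i j : Fin d) (hij : i < j) (A : Fam d) (s0 : Finset (Fin d)) (h0 : s0 ∈ A)
    (hj : j ∈ s0) (hi : i ∉ s0) (hs : sw i j s0 ∉ A) :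
    ∑ s ∈ shA i j A, wt s < ∑ s ∈ A, wt s := by
  have e : ∀ B : Fam d, ∑ s ∈ B, wt s = ∑ s, if s ∈ B then wt s else 0 := by
    intro B
    rw [← Finset.sum_filter, Finset.filter_mem_eq_inter, Finset.univ_inter]
  have h1 := sum_sw_nat i j (fun s => if s ∈ shA i j A then wt s else 0)
  have h2 := sum_sw_nat i j (fun s => if s ∈ A then wt s else 0)
  have h3 : ∑ s, ((if s ∈ shA i j A then wt s else 0) +
      (if sw i j s ∈ shA i j A then wt (sw i j s) else 0)) <
      ∑ s, ((if s ∈ A then wt s else 0) + (if sw i j s ∈ A then wt (sw i j s) else 0)) := by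
    refine Finset.sum_lt_sum (fun s _ => shA_pair i j A wt (fun s a b => (wt_sw i j hij s a b).le) s)
      ⟨s0, mem_univ _, ?_⟩
    have m1 : s0 ∉ shA i j A := by
      rw [mem_shA, if_neg hi]
      exact fun h => hs h.2
    have m2 : sw i j s0 ∈ shA i j A := by
      rw [mem_shA, if_pos (by rw [mem_sw_l]; exact hj), sw_sw]
      exact Or.inr h0
    rw [if_neg m1, if_pos m2, if_pos h0, if_neg hs, zero_add, add_zero]
    have := wt_sw i j hij (sw i j s0) (by rw [mem_sw_l]; exact hj) (by rw [mem_sw_r]; exact hi)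
    rw [sw_sw] at this
    exact this
  rw [Finset.sum_add_distrib, Finset.sum_add_distrib] at h3
  rw [e, e]
  omega

theorem down_lt {d : ℕ} (i : Fin d) (A : Fam d) (s0 : Finset (Fin d)) (h0 : s0 ∈ A)
    (h1 : s0.erase i ∉ A) : ∑ s ∈ Down.compression i A, wt s < ∑ s ∈ A, wt s := by
  have hinj : Set.InjOn (fun s : Finset (Fin d) => s.erase i) (A.filter fun s => s.erase i ∉ A) := by
    intro s hs t ht hst
    have hs' := Finset.mem_filter.1 (Finset.mem_coe.1 hs)
    have ht' := Finset.mem_filter.1 (Finset.mem_coe.1 ht)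
    have his : i ∈ s := by
      by_contra h
      exact hs'.2 (by rw [Finset.erase_eq_of_notMem h]; exact hs'.1)
    have hit : i ∈ t := by
      by_contra h
      exact ht'.2 (by rw [Finset.erase_eq_of_notMem h]; exact ht'.1)
    have hst' : s.erase i = t.erase i := hst
    rw [← Finset.insert_erase his, hst', Finset.insert_erase hit]
  have h2 : ∑ s ∈ Down.compression i A, wt s =
      ∑ s ∈ A.filter (fun s => s.erase i ∈ A), wt s +
        ∑ s ∈ A.filter (fun s => s.erase i ∉ A), wt (s.erase i) := by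
    unfold Down.compression
    rw [Finset.sum_disjUnion, Finset.filter_image, Finset.sum_image hinj]
  have hle : ∀ s : Finset (Fin d), wt (s.erase i) ≤ wt s := fun s =>
    Finset.sum_le_sum_of_subset (Finset.erase_subset _ _)
  rw [h2, ← Finset.sum_filter_add_sum_filter_not A (fun s => s.erase i ∈ A) (fun s => wt s)]
  refine Nat.add_lt_add_left ?_ _
  refine Finset.sum_lt_sum (fun s _ => hle s) ?_
  refine ⟨s0, Finset.mem_filter.2 ⟨h0, h1⟩, ?_⟩
  have hi : i ∈ s0 := by
    by_contra h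
    exact h1 (by rw [Finset.erase_eq_of_notMem h]; exact h0)
  have := wt_erase i s0 hi
  omega

/-- reduction to shifted down-sets -/
theorem compress (d : ℕ) (U : Finset (V d)) (t : ℝ) (h : IsEig U t) :
    ∃ (A : Fam d) (g : Finset (Fin d) → ℝ), Dn A ∧ Shf A ∧ A.card = U.card ∧ (∀ s, 0 ≤ g s) ∧
      (∀ s, s ∉ A → g s = 0) ∧ ∑ s, g s ^ 2 = 1 ∧ t ≤ DC_tot g := by
  let P : Fam d → Prop := fun A => A.card = U.card ∧ ∃ g : Finset (Fin d) → ℝ, (∀ s, 0 ≤ g s) ∧
    (∀ s, s ∉ A → g s = 0) ∧ ∑ s, g s ^ 2 = 1 ∧ t ≤ DC_tot g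
  obtain ⟨A0, g0, hA0⟩ := DC_start d U t h
  have hne : (Finset.univ.filter P).Nonempty :=
    ⟨A0, Finset.mem_filter.2 ⟨Finset.mem_univ _, hA0.1, g0, hA0.2⟩⟩
  obtain ⟨A, hA, hmin⟩ := Finset.exists_min_image (Finset.univ.filter P) (fun A => ∑ s ∈ A, wt s) hne
  obtain ⟨hAc, g, hg0, hgs, hg1, hgt⟩ := (Finset.mem_filter.1 hA).2
  refine ⟨A, g, ?_, ?_, hAc, hg0, hgs, hg1, hgt⟩
  · refine DC_Dn A fun s hs i => ?_
    by_contra hcon
    have hlt := down_lt i A s hs hcon
    have hP : P (Down.compression i A) :=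
      ⟨by rw [Down.card_compression]; exact hAc, DC_cp i g, DC_cp_nonneg i g hg0,
        DC_cp_supp i A g hg0 hgs, by rw [DC_cp_sq]; exact hg1, hgt.trans (DC_cp_tot i g)⟩
    have := hmin _ (Finset.mem_filter.2 ⟨Finset.mem_univ _, hP⟩)
    omega
  · intro s hs i j hij hj hi
    by_contra hcon
    have hcon' : sw i j s ∉ A := by
      rw [sw_diff i j s hj hi]
      exact hcon
    have hlt := shA_lt i j hij A s hs hj hi hcon'
    have hP : P (shA i j A) :=
      ⟨by rw [shA_card]; exact hAc, cp i j g, cp_nonneg i j g hg0,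
        cp_supp i j A g hg0 hgs, by rw [cp_sq]; exact hg1, hgt.trans (cp_tot i j g)⟩
    have := hmin _ (Finset.mem_filter.2 ⟨Finset.mem_univ _, hP⟩)
    omega

end Pool.Agent.helper9.HER
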