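import Pool.Agent.helper9.HER.Count
import Pool.Agent.helper9.HER.Dir

/-!
# The upper bound (MP_d9e35a_co, theorem P)
-/

set_option autoImplicit false

open scoped Classical

namespace Pool.Agent.helper9.HER

open Finset
open Pool.Agent.helper9.HQ
open Pool.Agent.helper65.HC (V IsEig IsTop lam)

theorem pow_le_choose' (k N : ℕ) : (N + 1) ^ k ≤ k.factorial * (k + N).choose k := by
  have := Nat.pow_le_choose k (k + N) (α := ℚ)
  have e : k + N + 1 - k = N + 1 := by omega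
  rw [e] at this
  have h2 : ((k.factorial : ℚ)) > 0 := by exact_mod_cast Nat.factorial_pos k
  rw [div_le_iff₀ h2] at this
  have h3 : (((N + 1) ^ k : ℕ) : ℚ) ≤ ((k.factorial * (k + N).choose k : ℕ) : ℚ) := by
    push_cast
    push_cast at this
    linarith
  exact_mod_cast h3

theorem thr (k : ℕ) (hk : 1 ≤ k) (m : ℕ) (hm : 1 ≤ m) :
    ∃ t : ℕ, m < t.choose k ∧ (t : ℝ) ≤ (2 * k + 1) * (m : ℝ) ^ ((k : ℝ)⁻¹) := by
  have hk0 : k ≠ 0 := by omega
  have hfac : (k.factorial : ℝ) ^ ((k : ℝ)⁻¹) ≤ k := by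
    have h1 : (k.factorial : ℝ) ≤ (k : ℝ) ^ k := by exact_mod_cast Nat.factorial_le_pow k
    calc (k.factorial : ℝ) ^ ((k : ℝ)⁻¹) ≤ ((k : ℝ) ^ k) ^ ((k : ℝ)⁻¹) :=
          Real.rpow_le_rpow (Nat.cast_nonneg _) h1 (by positivity)
      _ = k := Real.pow_rpow_inv_natCast (Nat.cast_nonneg _) hk0
  set x : ℝ := ((k.factorial : ℝ) * m) ^ ((k : ℝ)⁻¹) with hx
  have hx0 : 0 ≤ x := by positivity
  have hxk : x ^ k = (k.factorial : ℝ) * m := Real.rpow_inv_natCast_pow (by positivity) hk0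
  have hm1 : (1 : ℝ) ≤ (m : ℝ) ^ ((k : ℝ)⁻¹) :=
    Real.one_le_rpow (by exact_mod_cast hm) (by positivity)
  refine ⟨k + ⌈x⌉₊, ?_, ?_⟩
  · have h1 : x ≤ ⌈x⌉₊ := Nat.le_ceil x
    have h2 : x ^ k < ((⌈x⌉₊ : ℝ) + 1) ^ k := pow_lt_pow_left₀ (by linarith) hx0 hk0
    have h3 := pow_le_choose' k ⌈x⌉₊
    have h4 : (((⌈x⌉₊ + 1) ^ k : ℕ) : ℝ) ≤ ((k.factorial * (k + ⌈x⌉₊).choose k : ℕ) : ℝ) := by
      exact_mod_cast h3
    push_cast at h4
    rw [hxk] at h2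
    have h5 : (k.factorial : ℝ) * m < (k.factorial : ℝ) * ((k + ⌈x⌉₊).choose k : ℕ) := lt_of_lt_of_le h2 h4
    have h6 : (0 : ℝ) < k.factorial := by exact_mod_cast Nat.factorial_pos k
    have h7 := lt_of_mul_lt_mul_left h5 h6.le
    exact_mod_cast h7
  · have h1 : (⌈x⌉₊ : ℝ) < x + 1 := Nat.ceil_lt_add_one hx0
    have h2 : x = (k.factorial : ℝ) ^ ((k : ℝ)⁻¹) * (m : ℝ) ^ ((k : ℝ)⁻¹) :=
      Real.mul_rpow (by positivity) (by positivity)
    have h3 := mul_le_mul_of_nonneg_right hfac (by positivity : (0 : ℝ) ≤ (m : ℝ) ^ ((k : ℝ)⁻¹))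
    push_cast
    have hk' : (0 : ℝ) ≤ (k : ℝ) + 1 := by positivity
    nlinarith [mul_le_mul_of_nonneg_left hm1 hk']

theorem TI_mono_card {d : ℕ} (A : Fam d) (I : Finset (Fin d)) (k n : ℕ) (h : ℝ) (hT : Top k h)
    (hA : ∀ s ∈ A, (s ∩ I).card ≤ k) (g : Finset (Fin d) → ℝ) (hg0 : ∀ s, 0 ≤ g s)
    (hgs : ∀ s, s ∉ A → g s = 0) (hg1 : ∑ s, g s ^ 2 = 1) (hn : I.card ≤ n) : TI I g ≤ h * √(n : ℝ) := by
  have h1 := dir A I k h hT hA g hg0 hgs
  rw [hg1, mul_one] at h1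
  refine h1.trans (mul_le_mul_of_nonneg_left (Real.sqrt_le_sqrt ?_) hT.nn)
  exact_mod_cast hn

theorem upper (r : ℕ) (h : ℝ) (hT : Top r h) (d m : ℕ) (hm1 : 1 ≤ m) (hm2 : m ≤ 2 ^ d) :
    lam d m ≤ h * √(d : ℝ) + 9 * (r + 1) * (m : ℝ) ^ ((1 : ℝ) / (2 * r + 2)) := by
  obtain ⟨t1, ht1, ht1'⟩ := thr (2 * r + 2) (by omega) m hm1
  obtain ⟨t2, ht2, ht2'⟩ := thr (r + 1) (by omega) m hm1
  obtain ⟨h', hT'⟩ := Top_exists (2 * r + 1)
  have hh' := Top_le hT'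
  obtain ⟨U, hU, ht⟩ := (Pool.Agent.helper65.HC.lam_isGreatest d m hm1 hm2).1
  obtain ⟨A, g, hDn, hSh, hAc, hg0, hgs, hg1, hle⟩ := compress d U (lam d m) ht.1
  refine hle.trans ?_
  have hAm : A.card = m := by rw [hAc, hU]
  set p : ℝ := (m : ℝ) ^ ((1 : ℝ) / (2 * r + 2)) with hp
  have hp0 : 0 ≤ p := by positivity
  have e1 : (m : ℝ) ^ (((2 * r + 2 : ℕ) : ℝ)⁻¹) = p := by
    rw [hp]
    congr 1
    push_cast
    rw [one_div]
  have e2 : (m : ℝ) ^ (((r + 1 : ℕ) : ℝ)⁻¹) = p ^ 2 := by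
    rw [hp, ← Real.rpow_natCast, ← Real.rpow_mul (Nat.cast_nonneg _)]
    congr 1
    push_cast
    field_simp
  rw [e1] at ht1'
  rw [e2] at ht2'
  push_cast at ht1' ht2' hh'
  -- the three parts
  have hs1 : TI univ g = TI (univ.filter fun i : Fin d => (i : ℕ) < t1) g +
      TI (univ.filter fun i : Fin d => ¬ (i : ℕ) < t1) g :=
    (sum_filter_add_sum_filter_not _ _ _).symm
  have hs2 : TI (univ.filter fun i : Fin d => ¬ (i : ℕ) < t1) g =
      TI ((univ.filter fun i : Fin d => ¬ (i : ℕ) < t1).filter fun i : Fin d => (i : ℕ) < t2) g +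
      TI ((univ.filter fun i : Fin d => ¬ (i : ℕ) < t1).filter fun i : Fin d => ¬ (i : ℕ) < t2) g :=
    (sum_filter_add_sum_filter_not _ _ _).symm
  set I2 := (univ.filter fun i : Fin d => ¬ (i : ℕ) < t1).filter fun i : Fin d => (i : ℕ) < t2
  set I3 := (univ.filter fun i : Fin d => ¬ (i : ℕ) < t1).filter fun i : Fin d => ¬ (i : ℕ) < t2
  have b1 : TI (univ.filter fun i : Fin d => (i : ℕ) < t1) g ≤ (2 * (2 * r + 2) + 1) * p := by
    have := TI_trivial (univ.filter fun i : Fin d => (i : ℕ) < t1) g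
    rw [hg1, mul_one] at this
    refine this.trans (le_trans ?_ ht1')
    exact_mod_cast (card_lt'_le (d := d) (t := t1))
  have b2 : TI I2 g ≤ 2 * (2 * r + 2) * p := by
    have hA2 : ∀ s ∈ A, (s ∩ I2).card ≤ 2 * r + 1 := by
      intro s hs
      refine le_trans (card_le_card ?_) (count' A hDn hSh t1 (2 * r + 1) (by rw [hAm]; exact ht1) s hs)
      refine inter_subset_inter_left fun i hi => ?_
      have h3 := (mem_filter.mp (mem_filter.mp hi).1).2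
      exact mem_filter.mpr ⟨mem_univ _, not_lt.mp h3⟩
    have hc : I2.card ≤ t2 := by
      refine le_trans (card_le_card ?_) (card_lt'_le (d := d) (t := t2))
      intro i hi
      exact mem_filter.mpr ⟨mem_univ _, (mem_filter.mp hi).2⟩
    refine (TI_mono_card A I2 (2 * r + 1) t2 h' hT' hA2 g hg0 hgs hg1 hc).trans ?_
    have hr0 : (0 : ℝ) ≤ r := Nat.cast_nonneg _
    have c1 : √(t2 : ℝ) ≤ √(2 * (r + 1) + 1) * p := by
      calc √(t2 : ℝ) ≤ √((2 * (r + 1) + 1) * p ^ 2) := Real.sqrt_le_sqrt ht2'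
        _ = √(2 * (r + 1) + 1) * p := by rw [Real.sqrt_mul (by positivity), Real.sqrt_sq hp0]
    have c2 : √((2 : ℝ) * r + 1) * √(2 * (r + 1) + 1) ≤ 2 * r + 2 := by
      rw [← Real.sqrt_mul (by positivity)]
      refine Real.sqrt_le_iff.mpr ⟨by positivity, by nlinarith⟩
    calc h' * √(t2 : ℝ) ≤ (2 * √((2 : ℝ) * r + 1)) * (√(2 * (r + 1) + 1) * p) :=
          mul_le_mul hh' c1 (Real.sqrt_nonneg _) (by positivity)
      _ = 2 * (√((2 : ℝ) * r + 1) * √(2 * (r + 1) + 1)) * p := by ring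
      _ ≤ 2 * (2 * r + 2) * p := by
        refine mul_le_mul_of_nonneg_right ?_ hp0
        linarith
  have b3 : TI I3 g ≤ h * √(d : ℝ) := by
    have hA3 : ∀ s ∈ A, (s ∩ I3).card ≤ r := by
      intro s hs
      refine le_trans (card_le_card ?_) (count' A hDn hSh t2 r (by rw [hAm]; exact ht2) s hs)
      refine inter_subset_inter_left fun i hi => ?_
      have h3 := (mem_filter.mp hi).2
      exact mem_filter.mpr ⟨mem_univ _, not_lt.mp h3⟩
    refine TI_mono_card A I3 r d h hT hA3 g hg0 hgs hg1 ?_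
    have := card_le_univ I3
    rwa [Fintype.card_fin] at this
  rw [← TI_univ, hs1, hs2]
  have hr0 : (0 : ℝ) ≤ r := Nat.cast_nonneg _
  nlinarith [mul_nonneg hr0 hp0]

end Pool.Agent.helper9.HER
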